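import Mathlib

set_option autoImplicit false

namespace Pool.Agent.P.MP_84759c_al.IR

/-- Terms in the signature of lattice-ordered groups (product, inverse, unit, meet, join) with
variables in `α`. -/
inductive Term (α : Type) : Type
  | var : α → Term α
  | one : Term α
  | mul : Term α → Term α → Term α
  | inv : Term α → Term α
  | inf : Term α → Term α → Term α
  | sup : Term α → Term α → Term α

/-- The value of a term in a group with a lattice order, under the assignment `v`. -/
def Term.eval {α G : Type} [Group G] [Lattice G] (v : α → G) : Term α → G
  | .var a => v a
  | .one => 1
  | .mul s t => s.eval v * t.eval v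
  | .inv s => (s.eval v)⁻¹
  | .inf s t => s.eval v ⊓ t.eval v
  | .sup s t => s.eval v ⊔ t.eval v

/-- The identity `s = t` holds in `G`: both sides agree under every assignment. -/
def Holds (G : Type) [Group G] [Lattice G] {α : Type} (s t : Term α) : Prop :=
  ∀ v : α → G, s.eval v = t.eval v

end Pool.Agent.P.MP_84759c_al.IR
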