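import Mathlib
import Pool.Agent.P.MP_84759c_al.Main

set_option autoImplicit false

open LaurentPolynomial
open scoped commutatorElement

namespace Pool.Agent.P.MP_84759c_al.IR

open Pool.Agent.P.MP_84759c_al

section
variable {Q A B D : Type} [AddCommGroup Q] [CommRing A] [CommRing B] [CommRing D]

/-- The unitriangular subgroup. -/
def uni (T : TriData Q A B D) : Subgroup (Tri T) where
  carrier := {a | a.q = 0}
  one_mem' := rfl
  mul_mem' := by
    intro a b ha hb
    change a.q = 0 at ha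
    change b.q = 0 at hb
    change (a * b).q = 0
    simp [ha, hb]
  inv_mem' := by
    intro a ha
    change a.q = 0 at ha
    change a⁻¹.q = 0
    simp [ha]

theorem tri_cbm (T : TriData Q A B D) : derivedSeries (Tri T) 2 ≤ Subgroup.center (Tri T) := by
  have h1 : derivedSeries (Tri T) 1 ≤ uni T := by
    rw [derivedSeries_succ, Subgroup.commutator_le]
    intro a _ b _
    change (⁅a, b⁆).q = 0
    simp [commutatorElement_def]
  rw [derivedSeries_succ, Subgroup.commutator_le]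
  intro a ha b hb
  have ha' : a.q = 0 := h1 ha
  have hb' : b.q = 0 := h1 hb
  have hq : (⁅a, b⁆).q = 0 := by simp [commutatorElement_def]
  have hf : (⁅a, b⁆).f = 0 := by simp [commutatorElement_def, ha', hb', T.ca_zero]
  have hg : (⁅a, b⁆).g = 0 := by simp [commutatorElement_def, ha', hb', T.cb_zero]
  rw [Subgroup.mem_center_iff]
  intro c
  ext
  · simp [hq, hf, T.ca_zero]
  · simp [hq, hg, T.cb_zero]
  · simp [hf, hg, add_comm]
  · simp [hq]

theorem cbm_quot {T : TriData Q A B D} {Γ : Type} [Group Γ] (ι : Γ →* Tri T)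
    {C : Tri T → Prop} (hT : IsTCone (fun γ => C (ι γ))) {H : Type} [Group H] [LinearOrder H]
    [MulLeftMono H] (π : Γ →* H) (hs : Function.Surjective π) (hπ : ∀ a, 1 ≤ π a ↔ C (ι a)) :
    derivedSeries H 2 ≤ Subgroup.center H := by
  have key : ∀ γ, ι γ = 1 → π γ = 1 := by
    intro γ h
    have h0 : C 1 := by simpa using hT.one
    have p1 : 1 ≤ π γ := (hπ γ).mpr (by rw [h]; exact h0)
    have p2 : 1 ≤ π γ⁻¹ := (hπ γ⁻¹).mpr (by rw [map_inv, h, inv_one]; exact h0)
    rw [map_inv, one_le_inv'] at p2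
    exact le_antisymm p2 p1
  rw [← map_derivedSeries_eq hs 2]
  rintro _ ⟨γ, hγ, rfl⟩
  rw [Subgroup.mem_center_iff]
  intro c
  obtain ⟨δ, rfl⟩ := hs c
  have h1 : ι γ ∈ Subgroup.center (Tri T) :=
    tri_cbm T (map_derivedSeries_le_derivedSeries ι 2 ⟨γ, hγ, rfl⟩)
  rw [← commutatorElement_eq_one_iff_mul_comm, ← map_commutatorElement]
  apply key
  rw [map_commutatorElement, commutatorElement_eq_one_iff_mul_comm]
  exact Subgroup.mem_center_iff.mp h1 _

end

section
variable {k : ℕ} {B : Type} [CommRing B] [Algebra ℚ B]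

theorem approx2 [IsDomain B] [IsNoetherianRing B] {t : Fin (k + 3) → Bˣ}
    (hB : ∀ (D : Type) [CommRing D] [Algebra ℚ D] (τ : Fin (k + 3) → Dˣ),
        (∑ i, (τ i : D) = ((k + 3 : ℕ) : D)) → ∃ θ : B →+* D, ∀ i, θ (t i) = τ i)
    (hgen : ∀ f g : B →+* ℚ, (∀ i, f (t i) = g (t i)) → f = g)
    {ev1 evp : B →+* ℚ} (h1 : ∀ i, ev1 (t i) = 1)
    (hp : ∀ i, evp (t i) = ((two ^ ex i : ℚˣ) : ℚ))
    {P : ℕ → Lam × B → Prop} (hP : Chain (Wf ev1) P)
    {CQ : (Fin (k + 3) → ℤ) → Prop} (hQ : IsACone CQ) (hQa : ∀ q, CQ q → CQ (-q) → q = 0)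
    (X : Finset ℕ) (hX : X.card ≤ k) (v : ℕ → Tri (T0 t evp hp)) (hv : ∀ i ∉ X, v i = 1)
    (s : Finset (FreeGroup ℕ))
    (hs : ∀ w ∈ s, ¬ triCone CQ (chainCone (Wf ev1) P (fun _ => True)) (AddMonoidHom.id ℚ)
      (FreeGroup.lift v w)) :
    ∃ (N : Type) (_ : Group N) (_ : LinearOrder N), MulLeftMono N ∧ MulRightMono N ∧
      Group.IsNilpotent N ∧ derivedSeries N 2 ≤ Subgroup.center N ∧ ∃ v' : ℕ → N, ∀ w ∈ s, ¬ 1 ≤ FreeGroup.lift v' w := by
  classical
  have := laurent_isDomain ℚ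
  have := laurent_noeth ℚ
  obtain ⟨lam, hlam, hq⟩ := exists_lam X hX (fun i => (v i).q) (fun i hi => by rw [hv i hi]; rfl)
  obtain ⟨D, _, _, θ, μ, ν, φ, hμ, hsum, hφθ, hφν, hφ⟩ := exists_curve (k + 3)
    (fun i => ex i) lam hlam (fun i => neg_one_le_ex i) (sum_two_ex k)
  obtain ⟨θb, hb⟩ := hB D (fun i => μ ^ ex i * ν ^ lam i) hsum
  have hφb : ∀ g, φ (θb g) = evp g := by
    have : φ.comp θb = evp := by
      apply hgen
      intro i
      have e1 : Units.map (φ : D →* ℚ) μ = two := by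
        apply Units.ext
        change φ μ = _
        rw [← hμ, hφθ, evL, eval₂_T]; simp
      have e2 : Units.map (φ : D →* ℚ) ν = 1 := Units.ext hφν
      rw [hp, RingHom.comp_apply, hb]
      change ((Units.map (φ : D →* ℚ) (μ ^ ex i * ν ^ lam i) : ℚˣ) : ℚ) = _
      rw [map_mul, map_zpow, map_zpow, e1, e2, one_zpow, mul_one]
    exact fun g => RingHom.congr_fun this g
  let T' := T1 t lam θ θb μ ν hμ hb
  let ρ : Tri T' →* Tri (T0 t evp hp) := MonoidHom.mk'
    (fun a => ⟨a.f, a.g, φ a.z, a.q⟩) (fun a b => by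
      ext
      · rfl
      · rfl
      · simp only [Tri.mul_z, map_add, map_mul]
        change _ + φ (θ a.f) * φ (θb b.g) = _ + evL two a.f * evp b.g
        rw [hφθ, hφb]
      · rfl)
  let v₁ : ℕ → Tri T' := fun i => ⟨(v i).f, (v i).g, algebraMap ℚ D (v i).z, ⟨(v i).q, hq i⟩⟩
  let ι : FreeGroup ℕ →* Tri T' := FreeGroup.lift v₁
  have hρι : ∀ w, ρ (ι w) = FreeGroup.lift v w := by
    have : ρ.comp ι = FreeGroup.lift v := by
      ext1 i
      simp only [ι, MonoidHom.comp_apply, FreeGroup.lift_apply_of]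
      ext
      · rfl
      · rfl
      · change φ (algebraMap ℚ D (v i).z) = (v i).z
        simp
      · rfl
    exact fun w => DFunLike.congr_fun this w
  let _ : Algebra Lam D := θ.toAlgebra
  have hsm : ∀ (r : Lam) (x : D), r • x = θ r * x := fun r x => rfl
  let E : Submodule Lam D := Submodule.span Lam ((X.image (fun i => θb (v i).g) : Finset D) : Set D)
  have hE : ∀ w, θb (ι w).g ∈ E := by
    intro w
    induction w using FreeGroup.induction_on with
    | C1 => simp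
    | of i =>
      simp only [ι, FreeGroup.lift_apply_of, v₁]
      by_cases hi : i ∈ X
      · exact Submodule.subset_span (Finset.mem_coe.mpr (Finset.mem_image_of_mem _ hi))
      · rw [hv i hi]; simp
    | inv_of i ih =>
      rw [map_inv, Tri.inv_g, map_neg, map_mul]
      refine neg_mem ?_
      have := T'.compat (-(ι (FreeGroup.of i)).q)
      change θ _ = θb _ at this
      rw [← this, ← hsm]
      exact E.smul_mem _ ih
    | mul a b ha hb' =>
      rw [map_mul, Tri.mul_g, map_add, map_mul]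
      refine add_mem ha ?_
      have := T'.compat (ι a).q
      change θ _ = θb _ at this
      rw [← this, ← hsm]
      exact E.smul_mem _ hb'
  let W₁ : ℕ → Submodule ℚ D := fun j => (Ia ^ j • E).restrictScalars ℚ
  have hW₁ : Antitone W₁ := fun i j hij x hx =>
    Submodule.smul_mono_left (Ideal.pow_le_pow_right hij) hx
  have hK : ∀ x, (∀ j, x ∈ W₁ j) → φ x = 0 := by
    intro x hx
    have hfin : Module.Finite Lam E := Module.Finite.span_of_finite _ (Finset.finite_toSet _)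
    have hx0 : x ∈ E := by simpa [W₁] using hx 0
    have h2 : (⟨x, hx0⟩ : E) ∈ (⨅ j : ℕ, Ia ^ j • ⊤ : Submodule Lam E) := by
      rw [Submodule.mem_iInf]
      intro j
      rw [Submodule.mem_smul_top_iff]
      exact hx j
    obtain ⟨r, hr⟩ := (Ideal.mem_iInf_smul_pow_eq_bot_iff Ia _).mp h2
    have h3 : θ r * x = x := congrArg Subtype.val hr
    refine hφ (1 - r) ?_ x (by rw [map_sub, map_one, sub_mul, one_mul, h3, sub_self])
    intro h4
    apply Ia_ne_top
    rw [Ideal.eq_top_iff_one, sub_eq_zero.mp h4]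
    exact r.2
  obtain ⟨m₀, hm₀⟩ := exists_approx_functional (φ.toAddMonoidHom.toRatLinearMap) W₁ hW₁ hK
    (s.image (fun w => (ι w).z))
  have hlev : ∀ w : FreeGroup ℕ, ∃ j₀ : ℕ, ∀ m ≥ j₀,
      chainCone (Wf ev1) P (fun j => j < m) (ι w).pr →
        chainCone (Wf ev1) P (fun _ => True) (ι w).pr := by
    intro w
    by_cases hx : chainCone (Wf ev1) P (fun _ => True) (ι w).pr
    · exact ⟨0, fun _ _ _ => hx⟩
    · have hx' := hx
      simp only [chainCone] at hx'
      push Not at hx'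
      obtain ⟨j, -, h2, h3⟩ := hx'
      exact ⟨j + 1, fun m hm h => absurd (h j (by omega) h2) h3⟩
  choose j₀ hj₀ using hlev
  obtain ⟨m, hm1, hm2⟩ : ∃ m, m₀ ≤ m ∧ ∀ w ∈ s, j₀ w ≤ m :=
    ⟨max m₀ (s.sup j₀), le_max_left _ _, fun w hw =>
      le_trans (Finset.le_sup (f := j₀) hw) (le_max_right _ _)⟩
  obtain ⟨ψ, hψ1, hψ2⟩ := hm₀ m hm1
  let W₂ : ℕ → Submodule ℚ D := fun j => Nat.casesOn j ⊤ W₁
  obtain ⟨P₂, hP₂⟩ := exists_chain W₂ (fun _ => trivial) (fun j x hx => by
    cases j with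
    | zero => trivial
    | succ j => exact hW₁ (Nat.le_succ j) hx)
  let σ : Lam × B →+ D := θb.toAddMonoidHom.comp (AddMonoidHom.snd Lam B)
  let C₁ := chainCone (Wf ev1) P (fun j => j < m)
  let C₂ := chainCone W₂ P₂ (fun j => j < m + 1)
  have hC₁ : IsACone C₁ := hP.isACone (fun j hj => by omega)
  have hC₂ : IsACone C₂ := hP₂.isACone (fun j hj => by omega)
  let CM : Lam × B → Prop := fun x => C₁ x ∧ (C₁ (-x) → C₂ (σ x))
  have hCM : IsACone CM := hC₁.lex (hC₂.comap σ)
  have hQ' : IsACone (fun q : Qsub lam => CQ q) := hQ.comap (Qsub lam).subtype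
  have hstepW : ∀ j (γ h : FreeGroup ℕ), (ι γ).q = 0 → (ι γ).pr ∈ Wf ev1 j →
      (ι γ).pr - (ι h * ι γ * (ι h)⁻¹).pr ∈ Wf ev1 (j + 1) := by
    intro j γ h hq0 hγ
    have := Wf_step h1 j _ hγ (-(ι h).q : Qsub lam) (ι h).q
    simp only [Tri.pr, Tri.conj_f hq0, Tri.conj_g hq0]
    exact this
  have hstepE : ∀ j (γ h : FreeGroup ℕ), (ι γ).q = 0 → σ (ι γ).pr ∈ W₁ j →
      σ ((ι γ).pr - (ι h * ι γ * (ι h)⁻¹).pr) ∈ W₁ (j + 1) := by
    intro j γ h hq0 hγ
    have e : σ ((ι γ).pr - (ι h * ι γ * (ι h)⁻¹).pr) =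
        (1 - cA k (ι h).q) • σ (ι γ).pr := by
      have := T'.compat (ι h).q
      change θ (cA k (ι h).q) = θb _ at this
      change θb ((ι γ).g - (ι h * ι γ * (ι h)⁻¹).g) = θ _ * θb (ι γ).g
      rw [Tri.conj_g hq0, map_sub, map_mul, map_sub, map_one, this]
      ring
    rw [e]
    change _ ∈ Ia ^ (j + 1) • E
    rw [pow_succ', Submodule.mul_smul]
    exact Submodule.smul_mem_smul (one_sub_cA_mem k _) hγ
  have hker : ∀ γ : FreeGroup ℕ, CM (ι γ).pr → CM (-(ι γ).pr) →
      (ι γ).f ∈ Ia ^ m ∧ θb (ι γ).g ∈ W₁ m := by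
    intro γ ha hb'
    constructor
    · rcases Nat.eq_zero_or_pos m with h0 | h0
      · rw [h0]; simp
      · have := hP.mem_of_ker (L := fun j => j < m) (fun j hj => by omega) ha.1 hb'.1 (m - 1)
          (by omega)
        rw [Nat.sub_add_cancel h0] at this
        exact this.1
    · have h3 := hb'.2 (by rw [neg_neg]; exact ha.1)
      rw [map_neg] at h3
      exact hP₂.mem_of_ker (L := fun j => j < m + 1) (fun j hj => by omega) (ha.2 hb'.1) h3 m
        (by omega)
  have hψ : ∀ γ h : FreeGroup ℕ, CM (ι γ).pr → CM (-(ι γ).pr) →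
      ψ.toAddMonoidHom (T'.ta (ι γ).f * T'.tb (ι h).g) = 0 ∧
      ψ.toAddMonoidHom (T'.ta (ι h).f * T'.tb (ι γ).g) = 0 := by
    intro γ h ha hb'
    obtain ⟨h3, h4⟩ := hker γ ha hb'
    have h5 : (ι γ).f • θb (ι h).g ∈ Ia ^ m • E := Submodule.smul_mem_smul h3 (hE h)
    have h6 : (ι h).f • θb (ι γ).g ∈ Ia ^ m • E := (Ia ^ m • E).smul_mem (ι h).f h4
    rw [hsm] at h5 h6
    have h7 := hψ2 _ h5
    have h8 := hψ2 _ h6
    exact ⟨h7, h8⟩
  have hT : IsTCone (fun γ => triCone (fun q : Qsub lam => CQ q) CM ψ.toAddMonoidHom (ι γ)) := by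
    refine tri_tcone ι hQ' (fun q h2 h3 => Subtype.ext (hQa _ h2 h3)) hCM ?_ _ hψ
    intro γ h hq0 hγ
    refine ⟨hP.cone_of_sub (fun j hj => ?_) hγ.1, fun h2 => ?_⟩
    · rw [← neg_sub]; exact neg_mem (hstepW j γ h hq0 hj)
    · have h3 : C₁ (-(ι γ).pr) := by
        refine hP.cone_of_sub (fun j hj => ?_) h2
        have h4 := hstepW j (h * γ * h⁻¹) h⁻¹ (by simp [hq0])
          (by rw [map_mul, map_mul, map_inv]; simpa using neg_mem hj)
        have e : ι h⁻¹ * ι (h * γ * h⁻¹) * (ι h⁻¹)⁻¹ = ι γ := by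
          simp only [map_mul, map_inv]; group
        rw [e, map_mul, map_mul, map_inv] at h4
        convert h4 using 1
        abel
      refine hP₂.cone_of_sub (fun j hj => ?_) (hγ.2 h3)
      rw [← neg_sub, ← map_sub]
      refine neg_mem ?_
      cases j with
      | zero =>
        change _ ∈ Ia ^ 0 • E
        have h5 := hE (h * γ * h⁻¹)
        rw [map_mul, map_mul, map_inv] at h5
        rw [pow_zero, one_smul, map_sub]
        exact sub_mem (hE γ) h5
      | succ j => exact hstepE j γ h hq0 hj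
  obtain ⟨N, _, _, π, hl, hr, hsurj, hπ⟩ := hT.exists_quot
  refine ⟨N, inferInstance, inferInstance, hl, hr, ?_, cbm_quot ι hT π hsurj hπ,
    fun i => π (FreeGroup.of i), ?_⟩
  · refine tri_nilpotent ι hQ' ψ.toAddMonoidHom hψ (fun j x => x ∈ Wf ev1 j ∧ σ x ∈ W₁ j) m
      (fun γ => ⟨Wf_top _ _, ?_⟩) (fun j γ h hq0 hγ => ⟨hstepW j γ h hq0 hγ.1,
        hstepE j γ h hq0 hγ.2⟩) ?_ π hsurj hπ
    · change _ ∈ Ia ^ 0 • E
      rw [pow_zero, one_smul]
      exact hE γ
    · intro j hj x hx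
      have key : ∀ y : Lam × B, y ∈ Wf ev1 j → σ y ∈ W₁ j → CM y := by
        intro y h2 h3
        refine ⟨hP.cone_of_mem (fun i hi => hP.anti' (by omega) h2), fun _ => ?_⟩
        exact hP₂.cone_of_mem (fun i hi => hW₁ (show i ≤ j by omega) h3)
      exact ⟨key x hx.1 hx.2, key (-x) (neg_mem hx.1) (by rw [map_neg]; exact neg_mem hx.2)⟩
  · intro w hw hc
    have e : FreeGroup.lift (fun i => π (FreeGroup.of i)) = π := by
      ext1 i; simp
    rw [e, hπ] at hc
    apply hs w hw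
    rw [← hρι]
    obtain ⟨hc1, hc2⟩ := hc
    refine ⟨hc1, fun hq0 => ?_⟩
    have hq0' : (ι w).q = 0 := Subtype.ext hq0
    obtain ⟨hc3, hc4⟩ := hc2 hq0'
    have h2 := hj₀ w m (hm2 w hw) hc3.1
    refine ⟨h2, fun h3 => ?_⟩
    have h4 : (ι w).pr = 0 := Wf_inter _ (fun j =>
      hP.mem_of_ker (L := fun _ => True) (fun _ _ => trivial) h2 h3 j trivial)
    have h5 := hc4 (by rw [h4, neg_zero]; exact hCM.zero)
    have h6 := hψ1 _ (Finset.mem_image_of_mem (fun w => (ι w).z) hw)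
    change 0 ≤ ψ (ι w).z at h5
    rw [h6] at h5
    exact h5

end

/-- The ordered group of rank `k + 3`. -/
theorem exists_model2 (k : ℕ) :
    ∃ (G : Type) (_ : Group G) (_ : LinearOrder G), MulLeftMono G ∧ MulRightMono G ∧
      derivedSeries G 2 ≤ Subgroup.center G ∧
      (∀ X : Finset ℕ, X.card ≤ k → ∀ v : ℕ → G, (∀ i ∉ X, v i = 1) →
        ∀ s : Finset (FreeGroup ℕ), (∀ w ∈ s, ¬ 1 ≤ FreeGroup.lift v w) →
        ∃ (N : Type) (_ : Group N) (_ : LinearOrder N), MulLeftMono N ∧ MulRightMono N ∧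
          Group.IsNilpotent N ∧ derivedSeries N 2 ≤ Subgroup.center N ∧
          ∃ v' : ℕ → N, ∀ w ∈ s, ¬ 1 ≤ FreeGroup.lift v' w) ∧
      ∃ v : ℕ → G, (∀ i < k + 3, relA v i = 1) ∧ (∀ i < k + 3, relB v i = 1) ∧ relC v k = 1 ∧
        relD v = ⁅v 0, v 1⁆⁻¹ ∧ ¬ 1 ≤ ⁅v 0, v 1⁆⁻¹ := by
  classical
  obtain ⟨B, _, _, _, _, t, ht, hgen, hB⟩ := exists_ring (k + 2)
  obtain ⟨ev1, h1⟩ := hB ℚ (fun _ => 1) (by simp)
  obtain ⟨evp, hp⟩ := hB ℚ (fun i => two ^ ex i) (by
    rw [← sum_two_ex k]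
    simp [two])
  obtain ⟨P, hP⟩ := exists_chain (Wf ev1) (Wf_top ev1) (Wf_anti ev1)
  obtain ⟨PQ, hPQ, hPQa⟩ := exists_acone0 (Fin (k + 3) → ℚ)
  let c : (Fin (k + 3) → ℤ) →+ (Fin (k + 3) → ℚ) :=
    { toFun := fun q i => q i
      map_zero' := by ext; simp
      map_add' := fun a b => by ext; simp }
  have hQ : IsACone (fun q => PQ (c q)) := hPQ.comap c
  have hQa : ∀ q, PQ (c q) → PQ (c (-q)) → q = 0 := by
    intro q h2 h3
    rw [map_neg] at h3
    have := hPQa _ h2 h3
    ext i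
    have h4 := congrFun this i
    simpa [c] using h4
  let T' := T0 t evp hp
  have hM : IsACone (chainCone (Wf ev1) P (fun _ => True)) := hP.isACone (fun _ _ => trivial)
  have hT : IsTCone (fun γ => triCone (fun q => PQ (c q)) (chainCone (Wf ev1) P (fun _ => True))
      (AddMonoidHom.id ℚ) (MonoidHom.id (Tri T') γ)) := by
    refine tri_tcone _ hQ hQa hM ?_ _ ?_
    · intro γ h hq0 hγ
      refine hP.cone_of_sub (fun j hj => ?_) hγ
      rw [← neg_sub]
      refine neg_mem ?_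
      have := Wf_step h1 j _ hj (-h.q) h.q
      simp only [MonoidHom.id_apply] at hq0 ⊢
      simp only [Tri.pr, Tri.conj_f hq0, Tri.conj_g hq0]
      exact this
    · intro γ h h2 h3
      have h4 : γ.pr = 0 := Wf_inter _ (fun j =>
        hP.mem_of_ker (L := fun _ => True) (fun _ _ => trivial) h2 h3 j trivial)
      have h5 : γ.f = 0 := congrArg Prod.fst h4
      have h6 : γ.g = 0 := congrArg Prod.snd h4
      simp [h5, h6]
  obtain ⟨G, _, _, π, hl, hr, hs, hπ⟩ := hT.exists_quot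
  refine ⟨G, inferInstance, inferInstance, hl, hr, cbm_quot (MonoidHom.id _) hT π hs hπ, ?_, ?_⟩
  · intro X hX v hv s hs'
    choose u hu using hs
    let v₀ : ℕ → Tri T' := fun i => if i ∈ X then u (v i) else 1
    have hv₀ : (fun i => π (v₀ i)) = v := by
      ext i
      by_cases hi : i ∈ X
      · simp [v₀, hi, hu]
      · simp [v₀, hi, hv i hi]
    refine approx2 hB hgen h1 hp hP hQ hQa X hX v₀ (fun i hi => by simp [v₀, hi]) s ?_
    intro w hw hc
    apply hs' w hw
    rw [← hv₀, ← map_lift, hπ]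
    exact hc
  · let e : ℕ → Multiplicative (Fin (k + 3) → ℤ) := fun i =>
      Multiplicative.ofAdd (if h : i < k + 3 then Pi.single ⟨i, h⟩ 1 else 0)
    let v₀ : ℕ → Tri T' := fun i =>
      if i = 0 then fx T' else if i = 1 then gy T' (Multiplicative.ofAdd 1) else
        if i = 2 then dq T' (e 0) else dq T' (e (i - 3))
    have v0 : v₀ 0 = fx T' := by simp [v₀]
    have v1 : v₀ 1 = gy T' (Multiplicative.ofAdd 1) := by simp [v₀]
    have v2 : v₀ 2 = dq T' (e 0) := by simp [v₀]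
    have v3 : ∀ i, v₀ (i + 3) = dq T' (e i) := by intro i; simp [v₀]
    have hcb : ∀ i (hi : i < k + 3), T'.cb (e i).toAdd = t ⟨i, hi⟩ := by
      intro i hi
      simp only [e, dif_pos hi, toAdd_ofAdd]
      exact chi_single t _
    have hd : ⁅v₀ 0, v₀ 1⁆ = cz T' (Multiplicative.ofAdd 1) := by
      rw [v0, v1, comm_fx_gy]; simp
    have hd' : ⁅π (v₀ 0), π (v₀ 1)⁆ = π (cz T' (Multiplicative.ofAdd 1)) := by
      rw [← hd, map_commutatorElement]
    refine ⟨fun i => π (v₀ i), fun i hi => ?_, fun i hi => ?_, ?_, ?_, ?_⟩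
    · rw [← map_relA, relA, v0, v2, v3, ← map_zpow, ← map_mul, comm_fx_dq, map_one]
      change cA k _ = 1
      rw [cA_eq]
      have : (∑ j : Fin (k + 3), ex j * (e 0 ^ (-ex i) * e i).toAdd j) = 0 := by
        simp only [e, dif_pos hi, dif_pos (show 0 < k + 3 by omega), toAdd_mul, toAdd_zpow,
          toAdd_ofAdd, Pi.add_apply, Pi.smul_apply, mul_add, Finset.sum_add_distrib, smul_eq_mul,
          Pi.single_apply, mul_ite, mul_one, mul_zero, Finset.sum_ite_eq', Finset.mem_univ, if_true]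
        simp [ex]
      rw [this, T_zero]
    · rw [← map_relB, relB, v2, v3, comm_dq_dq, map_one]
    · rw [← map_relC, relC]
      have e1 : (List.range (k + 3)).map (fun i => v₀ (i + 3) * v₀ 1 * (v₀ (i + 3))⁻¹) =
          (List.range (k + 3)).map (fun i => gy T' (Multiplicative.ofAdd (T'.cb (e i).toAdd))) := by
        refine List.map_congr_left (fun i _ => ?_)
        rw [v3, v1, conj_dq_gy]; simp
      have e2 : ∀ n, ((List.range n).map
          (fun i => gy T' (Multiplicative.ofAdd (T'.cb (e i).toAdd)))).prod =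
          gy T' (Multiplicative.ofAdd (∑ i ∈ Finset.range n, T'.cb (e i).toAdd)) := by
        intro n
        rw [ofAdd_sum]
        induction n with
        | zero => simp
        | succ n ih =>
          rw [List.range_succ, List.map_append, List.prod_append, ih, Finset.prod_range_succ,
            map_mul]
          simp
      have e3 : ∑ i ∈ Finset.range (k + 3), T'.cb (e i).toAdd = ((k + 2 + 1 : ℕ) : B) := by
        rw [← ht, ← Fin.sum_univ_eq_sum_range (fun i => T'.cb (e i).toAdd)]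
        exact Finset.sum_congr rfl (fun i _ => hcb i i.2)
      rw [e1, e2, e3, v1, ← map_pow, ← ofAdd_nsmul, nsmul_one, mul_inv_cancel, map_one]
    · rw [← map_relD, relD, hd', hd, v0, v1, v2, conj_dq_gy, comm_fx_gy, hcb 0 (by omega)]
      have e1 : T'.tb ((Multiplicative.ofAdd ((t ⟨0, by omega⟩ : B) *
          (Multiplicative.ofAdd (1 : B)).toAdd)).toAdd) = 2 := by
        simp only [toAdd_ofAdd, mul_one]
        change evp _ = 2
        rw [hp]; simp [ex, two]
      rw [e1, ← map_pow (cz T'), ← map_pow (cz T'), ← map_inv (cz T'), ← map_mul (cz T'),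
        ← map_inv π, ← map_inv (cz T')]
      congr 2
      apply Multiplicative.toAdd.injective
      simp
      norm_num
    · rw [hd', ← map_inv, hπ, ← map_inv]
      rintro ⟨-, h2⟩
      have h3 := (h2 rfl).2 (by
        have : (MonoidHom.id (Tri T') (cz T' (Multiplicative.ofAdd 1)⁻¹)).pr = 0 := rfl
        rw [this, neg_zero]; exact hM.zero)
      have h4 : (0 : ℚ) ≤ -1 := h3
      norm_num at h4

end Pool.Agent.P.MP_84759c_al.IR
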