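import Mathlib
import Pool.Agent.P.MP_84759c_al.IR.Defs
import Pool.Agent.P.MP_84759c_al.IR.Model2

set_option autoImplicit false

namespace Pool.Agent.P.MP_84759c_al.IR

open Pool.Agent.P.MP_84759c_al

/-- Words below the value of a term that bound the term from above in every ordered group. -/
def Up {α : Type} (e : α → ℕ) {G : Type} [Group G] [LinearOrder G] (v : ℕ → G) (u : Term α) :
    Prop :=
  ∃ S : Finset (FreeGroup ℕ), (∀ w ∈ S, FreeGroup.lift v w ≤ u.eval (fun a => v (e a))) ∧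
    ∀ (N : Type) [Group N] [LinearOrder N] [MulLeftMono N] [MulRightMono N] (v' : ℕ → N),
      ∃ w ∈ S, u.eval (fun a => v' (e a)) ≤ FreeGroup.lift v' w

/-- Words above the value of a term that bound the term from below in every ordered group. -/
def Low {α : Type} (e : α → ℕ) {G : Type} [Group G] [LinearOrder G] (v : ℕ → G) (u : Term α) :
    Prop :=
  ∃ S : Finset (FreeGroup ℕ), (∀ w ∈ S, u.eval (fun a => v (e a)) ≤ FreeGroup.lift v w) ∧
    ∀ (N : Type) [Group N] [LinearOrder N] [MulLeftMono N] [MulRightMono N] (v' : ℕ → N),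
      ∃ w ∈ S, FreeGroup.lift v' w ≤ u.eval (fun a => v' (e a))

theorem up_low {α : Type} (e : α → ℕ) {G : Type} [Group G] [LinearOrder G] [MulLeftMono G]
    [MulRightMono G] (v : ℕ → G) (u : Term α) : Up e v u ∧ Low e v u := by
  classical
  induction u with
  | var a =>
    refine ⟨⟨{FreeGroup.of (e a)}, ?_, ?_⟩, ⟨{FreeGroup.of (e a)}, ?_, ?_⟩⟩
    · intro w hw; rw [Finset.mem_singleton.mp hw]; simp [Term.eval]
    · intro N _ _ _ _ v'; exact ⟨_, Finset.mem_singleton_self _, by simp [Term.eval]⟩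
    · intro w hw; rw [Finset.mem_singleton.mp hw]; simp [Term.eval]
    · intro N _ _ _ _ v'; exact ⟨_, Finset.mem_singleton_self _, by simp [Term.eval]⟩
  | one =>
    refine ⟨⟨{1}, ?_, ?_⟩, ⟨{1}, ?_, ?_⟩⟩
    · intro w hw; rw [Finset.mem_singleton.mp hw]; simp [Term.eval]
    · intro N _ _ _ _ v'; exact ⟨_, Finset.mem_singleton_self _, by simp [Term.eval]⟩
    · intro w hw; rw [Finset.mem_singleton.mp hw]; simp [Term.eval]
    · intro N _ _ _ _ v'; exact ⟨_, Finset.mem_singleton_self _, by simp [Term.eval]⟩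
  | mul s t hs ht =>
    obtain ⟨⟨S1, a1, b1⟩, ⟨S2, a2, b2⟩⟩ := hs
    obtain ⟨⟨S3, a3, b3⟩, ⟨S4, a4, b4⟩⟩ := ht
    refine ⟨⟨Finset.image₂ (· * ·) S1 S3, ?_, ?_⟩, ⟨Finset.image₂ (· * ·) S2 S4, ?_, ?_⟩⟩
    · intro w hw
      obtain ⟨x, hx, y, hy, rfl⟩ := Finset.mem_image₂.mp hw
      rw [map_mul]
      exact mul_le_mul' (a1 x hx) (a3 y hy)
    · intro N _ _ _ _ v'
      obtain ⟨x, hx, h1⟩ := b1 N v'
      obtain ⟨y, hy, h2⟩ := b3 N v'
      exact ⟨x * y, Finset.mem_image₂_of_mem hx hy, by rw [map_mul]; exact mul_le_mul' h1 h2⟩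
    · intro w hw
      obtain ⟨x, hx, y, hy, rfl⟩ := Finset.mem_image₂.mp hw
      rw [map_mul]
      exact mul_le_mul' (a2 x hx) (a4 y hy)
    · intro N _ _ _ _ v'
      obtain ⟨x, hx, h1⟩ := b2 N v'
      obtain ⟨y, hy, h2⟩ := b4 N v'
      exact ⟨x * y, Finset.mem_image₂_of_mem hx hy, by rw [map_mul]; exact mul_le_mul' h1 h2⟩
  | inv s hs =>
    obtain ⟨⟨S1, a1, b1⟩, ⟨S2, a2, b2⟩⟩ := hs
    refine ⟨⟨S2.image (·⁻¹), ?_, ?_⟩, ⟨S1.image (·⁻¹), ?_, ?_⟩⟩
    · intro w hw
      obtain ⟨x, hx, rfl⟩ := Finset.mem_image.mp hw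
      rw [map_inv]
      exact inv_le_inv_iff.mpr (a2 x hx)
    · intro N _ _ _ _ v'
      obtain ⟨x, hx, h1⟩ := b2 N v'
      exact ⟨x⁻¹, Finset.mem_image_of_mem _ hx, by rw [map_inv]; exact inv_le_inv_iff.mpr h1⟩
    · intro w hw
      obtain ⟨x, hx, rfl⟩ := Finset.mem_image.mp hw
      rw [map_inv]
      exact inv_le_inv_iff.mpr (a1 x hx)
    · intro N _ _ _ _ v'
      obtain ⟨x, hx, h1⟩ := b1 N v'
      exact ⟨x⁻¹, Finset.mem_image_of_mem _ hx, by rw [map_inv]; exact inv_le_inv_iff.mpr h1⟩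
  | inf s t hs ht =>
    obtain ⟨⟨S1, a1, b1⟩, ⟨S2, a2, b2⟩⟩ := hs
    obtain ⟨⟨S3, a3, b3⟩, ⟨S4, a4, b4⟩⟩ := ht
    constructor
    · rcases le_total (s.eval (fun a => v (e a))) (t.eval (fun a => v (e a))) with h | h
      · refine ⟨S1, fun w hw => le_inf (a1 w hw) ((a1 w hw).trans h), fun N _ _ _ _ v' => ?_⟩
        obtain ⟨x, hx, h1⟩ := b1 N v'
        exact ⟨x, hx, le_trans inf_le_left h1⟩
      · refine ⟨S3, fun w hw => le_inf ((a3 w hw).trans h) (a3 w hw), fun N _ _ _ _ v' => ?_⟩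
        obtain ⟨x, hx, h1⟩ := b3 N v'
        exact ⟨x, hx, le_trans inf_le_right h1⟩
    · refine ⟨S2 ∪ S4, fun w hw => ?_, fun N _ _ _ _ v' => ?_⟩
      · rcases Finset.mem_union.mp hw with hw | hw
        · exact le_trans inf_le_left (a2 w hw)
        · exact le_trans inf_le_right (a4 w hw)
      · obtain ⟨x, hx, h1⟩ := b2 N v'
        obtain ⟨y, hy, h2⟩ := b4 N v'
        rcases le_total (FreeGroup.lift v' x) (FreeGroup.lift v' y) with h | h
        · exact ⟨x, Finset.mem_union_left _ hx, le_inf h1 (h.trans h2)⟩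
        · exact ⟨y, Finset.mem_union_right _ hy, le_inf (h.trans h1) h2⟩
  | sup s t hs ht =>
    obtain ⟨⟨S1, a1, b1⟩, ⟨S2, a2, b2⟩⟩ := hs
    obtain ⟨⟨S3, a3, b3⟩, ⟨S4, a4, b4⟩⟩ := ht
    constructor
    · refine ⟨S1 ∪ S3, fun w hw => ?_, fun N _ _ _ _ v' => ?_⟩
      · rcases Finset.mem_union.mp hw with hw | hw
        · exact le_trans (a1 w hw) le_sup_left
        · exact le_trans (a3 w hw) le_sup_right
      · obtain ⟨x, hx, h1⟩ := b1 N v'
        obtain ⟨y, hy, h2⟩ := b3 N v'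
        rcases le_total (FreeGroup.lift v' x) (FreeGroup.lift v' y) with h | h
        · exact ⟨y, Finset.mem_union_right _ hy, sup_le (h1.trans h) h2⟩
        · exact ⟨x, Finset.mem_union_left _ hx, sup_le h1 (h2.trans h)⟩
    · rcases le_total (s.eval (fun a => v (e a))) (t.eval (fun a => v (e a))) with h | h
      · refine ⟨S4, fun w hw => sup_le (h.trans (a4 w hw)) (a4 w hw), fun N _ _ _ _ v' => ?_⟩
        obtain ⟨x, hx, h1⟩ := b4 N v'
        exact ⟨x, hx, le_trans h1 le_sup_right⟩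
      · refine ⟨S2, fun w hw => sup_le (a2 w hw) (h.trans (a2 w hw)), fun N _ _ _ _ v' => ?_⟩
        obtain ⟨x, hx, h1⟩ := b2 N v'
        exact ⟨x, hx, le_trans h1 le_sup_left⟩

/-- Every group word is the value of a term. -/
theorem exists_term_word (w : FreeGroup ℕ) : ∃ u : Term ℕ, ∀ (G : Type) [Group G] [Lattice G]
    (v : ℕ → G), u.eval v = FreeGroup.lift v w := by
  induction w using FreeGroup.induction_on with
  | C1 => exact ⟨.one, fun G _ _ v => by simp [Term.eval]⟩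
  | of i => exact ⟨.var i, fun G _ _ v => by simp [Term.eval]⟩
  | inv_of i ih =>
    obtain ⟨u, hu⟩ := ih
    exact ⟨.inv u, fun G _ _ v => by rw [map_inv, ← hu]; rfl⟩
  | mul a b ha hb =>
    obtain ⟨u, hu⟩ := ha
    obtain ⟨u', hu'⟩ := hb
    exact ⟨.mul u u', fun G _ _ v => by rw [map_mul, ← hu, ← hu']; rfl⟩

/-- Every finite join of group words is the value of a term. -/
theorem exists_term_sup (s : Finset (FreeGroup ℕ)) (hs : s.Nonempty) :
    ∃ u : Term ℕ, ∀ (G : Type) [Group G] [Lattice G] (v : ℕ → G),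
      u.eval v = s.sup' hs (fun w => FreeGroup.lift v w) := by
  induction hs using Finset.Nonempty.cons_induction with
  | singleton w =>
    obtain ⟨u, hu⟩ := exists_term_word w
    exact ⟨u, fun G _ _ v => by rw [hu, Finset.sup'_singleton]⟩
  | cons w s hw hs ih =>
    obtain ⟨u, hu⟩ := exists_term_word w
    obtain ⟨u', hu'⟩ := ih
    exact ⟨.sup u u', fun G _ _ v => by rw [Finset.sup'_cons hs, ← hu, ← hu']; rfl⟩

theorem infinite_rank (k : ℕ) :
    ∃ (G : Type) (_ : Group G) (_ : LinearOrder G), MulLeftMono G ∧ MulRightMono G ∧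
      derivedSeries G 2 ≤ Subgroup.center G ∧
      (∀ s t : Term (Fin k),
        (∀ (H : Type) [Group H] [LinearOrder H] [MulLeftMono H] [MulRightMono H],
          Group.IsNilpotent H → derivedSeries H 2 ≤ Subgroup.center H → Holds H s t) →
        Holds G s t) ∧
      ∃ s t : Term ℕ,
        (∀ (H : Type) [Group H] [Lattice H] [MulLeftMono H] [MulRightMono H],
          Group.IsNilpotent H → Holds H s t) ∧ ¬ Holds G s t := by
  classical
  obtain ⟨G, _, _, hl, hr, hc, hA, v, h1, h2, h3, h4, h5⟩ := exists_model2 k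
  refine ⟨G, inferInstance, inferInstance, hl, hr, hc, ?_, ?_⟩
  · have key : ∀ s t : Term (Fin k),
        (∀ (H : Type) [Group H] [LinearOrder H] [MulLeftMono H] [MulRightMono H],
          Group.IsNilpotent H → derivedSeries H 2 ≤ Subgroup.center H → Holds H s t) →
        ∀ u : Fin k → G, t.eval u ≤ s.eval u := by
      intro s t h u
      by_contra hlt
      rw [not_le] at hlt
      let u' : ℕ → G := fun i => if hi : i < k then u ⟨i, hi⟩ else 1
      have hu : (fun a : Fin k => u' a) = u := by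
        ext a; simp [u', a.2]
      obtain ⟨S, a1, b1⟩ := (up_low (fun a : Fin k => (a : ℕ)) u' (.mul s (.inv t))).1
      obtain ⟨N, _, _, hl', hr', hN, hcN, v', hv'⟩ := hA (Finset.range k) (by simp) u'
        (fun i hi => by
          rw [Finset.mem_range] at hi
          simp [u', hi]) S (by
        intro w hw
        rw [not_le]
        refine lt_of_le_of_lt (a1 w hw) ?_
        rw [hu]
        change s.eval u * (t.eval u)⁻¹ < 1
        rwa [mul_inv_lt_iff_lt_mul, one_mul])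
      obtain ⟨w, hw, h6⟩ := b1 N v'
      apply hv' w hw
      refine le_trans ?_ h6
      change 1 ≤ s.eval _ * (t.eval _)⁻¹
      rw [h N hN hcN, mul_inv_cancel]
    intro s t h u
    exact le_antisymm (key t s (fun H _ _ _ _ a b x => (h H a b x).symm) u) (key s t h u)
  · obtain ⟨u, hu⟩ := exists_term_sup (ident k) (ident_nonempty k)
    refine ⟨.inf u .one, .one, fun H _ _ _ _ hH x => ?_, fun h => ?_⟩
    · change u.eval x ⊓ 1 = 1
      rw [hu, inf_eq_right]
      exact ident_valid k H hH x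
    · have h6 : u.eval v ⊓ 1 = 1 := h v
      rw [hu, inf_eq_right, Finset.le_sup'_iff] at h6
      obtain ⟨w, hw, h7⟩ := h6
      rw [ident_fails k v h1 h2 h3 h4 w hw] at h7
      exact h5 h7

end Pool.Agent.P.MP_84759c_al.IR
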